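import Pool.Agent.W207.SW.SpecS

set_option autoImplicit false

/-!
Project SW (helper207), part KB: the kernel.
-/

open Filter Topology Set MeasureTheory
open scoped BigOperators

namespace Pool.Agent.W15.SW

open W207.SW
open W207.PR (ct dt)

theorem BL_pow (hT : S_BLT) (hM : S_BLM) (θ : ℝ) (hθ : 0 < θ) (j : ℕ) :
    BL (((j + 1 : ℕ) : ℝ) * θ) (fun u => Real.sinc (Real.pi * θ * u) ^ (2 * (j + 1))) := by
  induction j with
  | zero => simpa using hT θ hθ
  | succ j ih =>
    have h := hM (((j + 1 : ℕ) : ℝ) * θ) θ _ _ (by positivity) hθ ih (hT θ hθ)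
    have e1 : ((j + 1 + 1 : ℕ) : ℝ) * θ = ((j + 1 : ℕ) : ℝ) * θ + θ := by push_cast; ring
    rw [e1]
    have e2 : (fun u : ℝ => Real.sinc (Real.pi * θ * u) ^ (2 * (j + 1 + 1))) =
        fun u => Real.sinc (Real.pi * θ * u) ^ (2 * (j + 1)) * Real.sinc (Real.pi * θ * u) ^ 2 := by
      funext u
      rw [← pow_add]
      congr 1
    rw [e2]
    exact h

theorem BL_div {lam : ℝ} {h : ℝ → ℝ} (β : ℝ) (hb : BL lam h) : BL lam (fun u => h u / β) := by
  obtain ⟨p, h1, h2, h3, h4⟩ := hb
  refine ⟨fun x => p x / β, h1.div_const β, fun x => by simp only [h2],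
    fun x hx => by simp only [h3 x hx, zero_div], fun u => ?_⟩
  show h u / β = _
  rw [h4]
  unfold ct
  rw [← integral_div]
  congr 1
  funext α
  ring

theorem sinc_lower {x : ℝ} : 1 - x ^ 2 / 6 ≤ Real.sinc x := by
  wlog hx : 0 ≤ x with H
  · have := @H (-x) (by linarith)
    rw [Real.sinc_neg, neg_sq] at this
    exact this
  rcases hx.eq_or_lt with h | h
  · rw [← h]; simp
  · rw [Real.sinc_of_ne_zero h.ne', le_div_iff₀ h]
    have := Real.sin_gt_sub_cube h
    nlinarith

theorem abs_sinc_le_inv {x : ℝ} (hx : x ≠ 0) : |Real.sinc x| ≤ |x|⁻¹ := by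
  rw [Real.sinc_of_ne_zero hx, abs_div, div_eq_mul_inv]
  have h1 := Real.abs_sin_le_one x
  have h2 : 0 ≤ |x|⁻¹ := by positivity
  nlinarith

theorem sinc_sq_le (x : ℝ) : Real.sinc x ^ 2 ≤ 2 * (1 + x ^ 2)⁻¹ := by
  have h1 : Real.sinc x ^ 2 ≤ 1 := by
    rw [← sq_abs]
    exact pow_le_one₀ (abs_nonneg _) (Real.abs_sinc_le_one x)
  have h2 : Real.sinc x ^ 2 * x ^ 2 ≤ 1 := by
    rcases eq_or_ne x 0 with h | h
    · rw [h]; norm_num
    · have h3 := abs_sinc_le_inv h
      have h4 : |Real.sinc x| * |x| ≤ 1 := by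
        calc |Real.sinc x| * |x| ≤ |x|⁻¹ * |x| := mul_le_mul_of_nonneg_right h3 (abs_nonneg _)
          _ = 1 := inv_mul_cancel₀ (abs_ne_zero.2 h)
      have h5 : (|Real.sinc x| * |x|) ^ 2 ≤ 1 := pow_le_one₀ (by positivity) h4
      rw [mul_pow, sq_abs, sq_abs] at h5
      exact h5
  have h3 : 0 < 1 + x ^ 2 := by positivity
  rw [← div_eq_mul_inv, le_div_iff₀ h3]
  linarith

theorem kb (hT : S_BLT) (hM : S_BLM) : S_KB := by
  intro Λ hΛ
  refine ⟨16 * Λ, by positivity, fun η D hη hηΛ hD => ?_⟩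
  have hpi := Real.pi_gt_three
  have hpi4 := Real.pi_lt_four
  have hpi0 : 0 < Real.pi := Real.pi_pos
  -- the exponent
  obtain ⟨n, hn1, hn2⟩ : ∃ n : ℕ, ((n : ℝ) + 2 ≤ η * D / 4) ∧ η * D / 4 < n + 3 := by
    have h2 : 2 ≤ ⌊η * D / 4⌋₊ := Nat.le_floor (by push_cast; linarith)
    obtain ⟨n, hn⟩ := Nat.exists_eq_add_of_le h2
    have h3 := Nat.floor_le (show 0 ≤ η * D / 4 by linarith)
    have h4 := Nat.lt_floor_add_one (η * D / 4)
    rw [hn] at h3 h4
    push_cast at h3 h4
    exact ⟨n, by linarith, by linarith⟩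
  set m : ℕ := n + 1 + 1 with hm
  have hmR : (m : ℝ) = n + 2 := by rw [hm]; push_cast; ring
  have hm2 : (2 : ℝ) ≤ m := by rw [hmR]; have : (0 : ℝ) ≤ n := Nat.cast_nonneg n; linarith
  have hm0 : (0 : ℝ) < m := by linarith
  set θ : ℝ := η / (2 * m) with hθ
  have hθ0 : 0 < θ := by positivity
  have hmθ : (m : ℝ) * θ = η / 2 := by rw [hθ]; field_simp
  set b0 : ℝ → ℝ := fun u => Real.sinc (Real.pi * θ * u) ^ (2 * m) with hb0
  have hb0c : Continuous b0 := by
    have : Continuous fun u : ℝ => Real.pi * θ * u := by fun_prop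
    exact (Real.continuous_sinc.comp this).pow _
  have hb0n : ∀ u, 0 ≤ b0 u := fun u => by
    simp only [hb0]
    rw [pow_mul]
    positivity
  have hb01 : ∀ u, b0 u ≤ 1 := fun u => by
    simp only [hb0]
    rw [pow_mul]
    apply pow_le_one₀ (by positivity)
    rw [← sq_abs]
    exact pow_le_one₀ (abs_nonneg _) (Real.abs_sinc_le_one _)
  have hb0BL : BL (η / 2) b0 := by
    have := BL_pow hT hM θ hθ0 (n + 1)
    rw [← hm, hmθ] at this
    exact this
  have hb0int : Integrable b0 := by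
    have h1 : Integrable fun u : ℝ => 2 * (1 + (Real.pi * θ * u) ^ 2)⁻¹ :=
      (integrable_inv_one_add_sq.comp_mul_left' (by positivity : Real.pi * θ ≠ 0)).const_mul 2
    refine h1.mono' hb0c.aestronglyMeasurable (Eventually.of_forall fun u => ?_)
    rw [Real.norm_eq_abs, abs_of_nonneg (hb0n u)]
    refine le_trans ?_ (sinc_sq_le _)
    simp only [hb0]
    rw [pow_mul]
    apply pow_le_of_le_one (by positivity) _ (by omega)
    rw [← sq_abs]
    exact pow_le_one₀ (abs_nonneg _) (Real.abs_sinc_le_one _)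
  set β : ℝ := ∫ u, b0 u with hβ
  -- lower bound for the mass
  have hβl : 3 / (Real.pi * η) ≤ β := by
    set U : ℝ := 2 / (Real.pi * η) with hU
    have hU0 : 0 < U := by positivity
    have h1 : ∀ u ∈ Icc (-U) U, (3 / 4 : ℝ) ≤ b0 u := by
      intro u hu
      have h2 : |Real.pi * θ * u| ≤ 1 / m := by
        rw [abs_mul, abs_of_pos (by positivity : 0 < Real.pi * θ)]
        have h3 : |u| ≤ U := abs_le.2 hu
        calc Real.pi * θ * |u| ≤ Real.pi * θ * U := mul_le_mul_of_nonneg_left h3 (by positivity)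
          _ = 1 / m := by rw [hU, hθ]; field_simp
      have h4 : (Real.pi * θ * u) ^ 2 ≤ 1 / m ^ 2 := by
        rw [← sq_abs, ← one_div_pow]
        exact pow_le_pow_left₀ (abs_nonneg _) h2 2
      have hm1 : 1 / (m : ℝ) ^ 2 ≤ 1 := by
        rw [div_le_one (by positivity)]
        nlinarith
      have h5 : 1 + -(1 / (6 * (m : ℝ) ^ 2)) ≤ Real.sinc (Real.pi * θ * u) := by
        refine le_trans ?_ sinc_lower
        have e1 : 1 / (6 * (m : ℝ) ^ 2) = 1 / m ^ 2 / 6 := by field_simp
        rw [e1]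
        linarith
      have h6 : 0 ≤ 1 + -(1 / (6 * (m : ℝ) ^ 2)) := by
        have e1 : 1 / (6 * (m : ℝ) ^ 2) = 1 / m ^ 2 / 6 := by field_simp
        rw [e1]
        linarith
      have h7 : (1 + -(1 / (6 * (m : ℝ) ^ 2))) ^ (2 * m) ≤ b0 u :=
        pow_le_pow_left₀ h6 h5 _
      refine le_trans ?_ h7
      refine le_trans ?_ (one_add_mul_le_pow (by linarith) _)
      have e2 : ((2 * m : ℕ) : ℝ) * -(1 / (6 * (m : ℝ) ^ 2)) = -(1 / (3 * m)) := by
        push_cast
        field_simp
        norm_num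
      rw [e2]
      have e3 : 1 / (3 * (m : ℝ)) ≤ 1 / 6 := by
        apply one_div_le_one_div_of_le (by norm_num)
        linarith
      linarith
    have h2 := setIntegral_ge_of_const_le_real (μ := volume) measurableSet_Icc
      (by rw [Real.volume_Icc]; exact ENNReal.ofReal_ne_top) h1 hb0int.integrableOn
    have h3 : ∫ u in Icc (-U) U, b0 u ≤ β :=
      setIntegral_le_integral hb0int (Eventually.of_forall hb0n)
    have h4 : volume.real (Icc (-U) U) = 2 * U := by
      rw [Real.volume_real_Icc_of_le (by linarith)]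
      ring
    rw [h4] at h2
    refine le_trans (le_of_eq ?_) (h2.trans h3)
    rw [hU]
    field_simp
    norm_num
  have hβ0 : 0 < β := lt_of_lt_of_le (by positivity) hβl
  have hβi : 1 / β ≤ 2 * Λ := by
    calc 1 / β ≤ 1 / (3 / (Real.pi * η)) := one_div_le_one_div_of_le (by positivity) hβl
      _ = Real.pi * η / 3 := by field_simp
      _ ≤ 2 * Λ := by nlinarith
  have hbb : ∀ u, b0 u / β ≤ 2 * Λ * b0 u := by
    intro u
    rw [div_eq_mul_one_div, mul_comm]
    exact mul_le_mul_of_nonneg_right hβi (hb0n u)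
  refine ⟨fun u => b0 u / β, hb0c.div_const β, fun u => ?_, fun u => ⟨div_nonneg (hb0n u) hβ0.le, ?_⟩,
    hb0int.div_const β, ?_, BL_div β hb0BL, fun u hu => ?_⟩
  · simp only [hb0]
    rw [mul_neg, Real.sinc_neg]
  · have h1 := hbb u
    have h2 : 2 * Λ * b0 u ≤ 2 * Λ * 1 := mul_le_mul_of_nonneg_left (hb01 u) (by positivity)
    linarith
  · rw [integral_div, ← hβ, div_self hβ0.ne']
  · have hD0 : 0 < D := by
      by_contra h
      push Not at h
      nlinarith
    have hu0 : 0 < |u| := lt_of_lt_of_le hD0 hu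
    have hune : u ≠ 0 := abs_pos.1 hu0
    have hq1 : D / |u| ≤ 1 := by rw [div_le_one hu0]; exact hu
    have hq0 : 0 < D / |u| := by positivity
    have hmD : (m : ℝ) ≤ η * D / 4 := by rw [hmR]; exact hn1
    have hmD2 : η * D / 4 < m + 1 := by rw [hmR]; linarith
    have hθD : 2 / D ≤ θ := by
      rw [hθ, div_le_div_iff₀ hD0 (by positivity)]
      nlinarith
    have hxne : Real.pi * θ * u ≠ 0 := by positivity
    have hs : |Real.sinc (Real.pi * θ * u)| ≤ D / |u| * Real.exp (-1) := by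
      refine (abs_sinc_le_inv hxne).trans ?_
      have e1 : 2 * Real.pi * (|u| / D) ≤ |Real.pi * θ * u| := by
        rw [abs_mul, abs_of_pos (by positivity : 0 < Real.pi * θ)]
        calc 2 * Real.pi * (|u| / D) = Real.pi * (2 / D) * |u| := by ring
          _ ≤ Real.pi * θ * |u| := by gcongr
      have e2 : |Real.pi * θ * u|⁻¹ ≤ (2 * Real.pi * (|u| / D))⁻¹ :=
        inv_anti₀ (by positivity) e1
      have e3 : (2 * Real.pi * (|u| / D))⁻¹ = D / |u| * (2 * Real.pi)⁻¹ := by
        field_simp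
      rw [e3] at e2
      refine e2.trans ?_
      apply mul_le_mul_of_nonneg_left _ hq0.le
      rw [Real.exp_neg]
      apply inv_anti₀ (Real.exp_pos 1)
      have := Real.exp_one_lt_d9
      linarith
    have hb0u : b0 u ≤ (D / |u|) ^ 4 * (8 * Real.exp (-(η * D / 4))) := by
      have e1 : b0 u = |Real.sinc (Real.pi * θ * u)| ^ (2 * m) := by
        simp only [hb0]
        rw [pow_mul, pow_mul, sq_abs]
      rw [e1]
      calc |Real.sinc (Real.pi * θ * u)| ^ (2 * m) ≤ (D / |u| * Real.exp (-1)) ^ (2 * m) :=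
            pow_le_pow_left₀ (abs_nonneg _) hs _
        _ = (D / |u|) ^ (2 * m) * Real.exp (-1) ^ (2 * m) := mul_pow _ _ _
        _ ≤ (D / |u|) ^ 4 * (8 * Real.exp (-(η * D / 4))) := by
          apply mul_le_mul _ _ (by positivity) (by positivity)
          · exact pow_le_pow_of_le_one hq0.le hq1 (by omega)
          · rw [← Real.exp_nat_mul]
            have f1 : ((2 * m : ℕ) : ℝ) * -1 ≤ 2 + -(η * D / 4) := by
              push_cast
              linarith
            refine (Real.exp_le_exp.2 f1).trans ?_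
            rw [Real.exp_add]
            apply mul_le_mul_of_nonneg_right _ (Real.exp_pos _).le
            have f2 : Real.exp 2 = Real.exp 1 * Real.exp 1 := by
              rw [← Real.exp_add]; norm_num
            rw [f2]
            have f3 := Real.exp_one_lt_d9
            have f4 := Real.exp_pos 1
            nlinarith
    refine (hbb u).trans ?_
    have h2 : 2 * Λ * b0 u ≤ 2 * Λ * ((D / |u|) ^ 4 * (8 * Real.exp (-(η * D / 4)))) :=
      mul_le_mul_of_nonneg_left hb0u (by positivity)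
    refine h2.trans (le_of_eq ?_)
    ring

end Pool.Agent.W15.SW
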